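import Mathlib

set_option autoImplicit false

/-!
A centrally essential ring whose additive group is free abelian of rank `8`, with an essential right
ideal which is not a two-sided ideal.

The ring has the `ℤ`-basis `1, e, f, g, p, q, r, s` with the products
`e f = r`, `f g = p`, `g e = q`, `e p = p e = f q = q f = g r = r g = s`,
all other products of basis elements different from `1` being zero. The right ideal is the span of
`e, r, s`; it does not contain `g e = q`.
-/

namespace Pool.Agent.Results.MP_4595ea_al.EssentialRightIdeal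

/-- The additive group `ℤ ^ 8`. The coordinates are those with respect to
`1, e, f, g, p, q, r, s`. -/
def B : Type := ℤ × ℤ × ℤ × ℤ × ℤ × ℤ × ℤ × ℤ

instance : AddCommGroup B := inferInstanceAs (AddCommGroup (ℤ × ℤ × ℤ × ℤ × ℤ × ℤ × ℤ × ℤ))

instance : Module.Free ℤ B := inferInstanceAs (Module.Free ℤ (ℤ × ℤ × ℤ × ℤ × ℤ × ℤ × ℤ × ℤ))

instance : Module.Finite ℤ B := inferInstanceAs (Module.Finite ℤ (ℤ × ℤ × ℤ × ℤ × ℤ × ℤ × ℤ × ℤ))

/-- The element with given coordinates. -/
def mk (a e f g p q r s : ℤ) : B := (a, e, f, g, p, q, r, s)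

/-- The coordinate at `1`. -/
def B.a (x : B) : ℤ := x.1

/-- The coordinate at `e`. -/
def B.e (x : B) : ℤ := x.2.1

/-- The coordinate at `f`. -/
def B.f (x : B) : ℤ := x.2.2.1

/-- The coordinate at `g`. -/
def B.g (x : B) : ℤ := x.2.2.2.1

/-- The coordinate at `p`. -/
def B.p (x : B) : ℤ := x.2.2.2.2.1

/-- The coordinate at `q`. -/
def B.q (x : B) : ℤ := x.2.2.2.2.2.1

/-- The coordinate at `r`. -/
def B.r (x : B) : ℤ := x.2.2.2.2.2.2.1

/-- The coordinate at `s`. -/
def B.s (x : B) : ℤ := x.2.2.2.2.2.2.2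

section simps

variable (a e f g p q r s : ℤ) (x y : B)

@[simp] theorem mk_a : (mk a e f g p q r s).a = a := rfl
@[simp] theorem mk_e : (mk a e f g p q r s).e = e := rfl
@[simp] theorem mk_f : (mk a e f g p q r s).f = f := rfl
@[simp] theorem mk_g : (mk a e f g p q r s).g = g := rfl
@[simp] theorem mk_p : (mk a e f g p q r s).p = p := rfl
@[simp] theorem mk_q : (mk a e f g p q r s).q = q := rfl
@[simp] theorem mk_r : (mk a e f g p q r s).r = r := rfl
@[simp] theorem mk_s : (mk a e f g p q r s).s = s := rfl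

variable {x y} in
theorem B.ext' (h1 : x.a = y.a) (h2 : x.e = y.e) (h3 : x.f = y.f) (h4 : x.g = y.g)
    (h5 : x.p = y.p) (h6 : x.q = y.q) (h7 : x.r = y.r) (h8 : x.s = y.s) : x = y :=
  Prod.ext h1 (Prod.ext h2 (Prod.ext h3 (Prod.ext h4 (Prod.ext h5 (Prod.ext h6
    (Prod.ext h7 h8))))))

@[simp] theorem zero_a : (0 : B).a = 0 := rfl
@[simp] theorem zero_e : (0 : B).e = 0 := rfl
@[simp] theorem zero_f : (0 : B).f = 0 := rfl
@[simp] theorem zero_g : (0 : B).g = 0 := rfl
@[simp] theorem zero_p : (0 : B).p = 0 := rfl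
@[simp] theorem zero_q : (0 : B).q = 0 := rfl
@[simp] theorem zero_r : (0 : B).r = 0 := rfl
@[simp] theorem zero_s : (0 : B).s = 0 := rfl
@[simp] theorem add_a : (x + y).a = x.a + y.a := rfl
@[simp] theorem add_e : (x + y).e = x.e + y.e := rfl
@[simp] theorem add_f : (x + y).f = x.f + y.f := rfl
@[simp] theorem add_g : (x + y).g = x.g + y.g := rfl
@[simp] theorem add_p : (x + y).p = x.p + y.p := rfl
@[simp] theorem add_q : (x + y).q = x.q + y.q := rfl
@[simp] theorem add_r : (x + y).r = x.r + y.r := rfl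
@[simp] theorem add_s : (x + y).s = x.s + y.s := rfl
@[simp] theorem neg_a : (-x).a = -x.a := rfl
@[simp] theorem neg_e : (-x).e = -x.e := rfl
@[simp] theorem neg_f : (-x).f = -x.f := rfl
@[simp] theorem neg_g : (-x).g = -x.g := rfl
@[simp] theorem neg_p : (-x).p = -x.p := rfl
@[simp] theorem neg_q : (-x).q = -x.q := rfl
@[simp] theorem neg_r : (-x).r = -x.r := rfl
@[simp] theorem neg_s : (-x).s = -x.s := rfl

end simps

instance : Mul B :=
  ⟨fun x y => mk (x.a * y.a) (x.a * y.e + x.e * y.a) (x.a * y.f + x.f * y.a)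
    (x.a * y.g + x.g * y.a) (x.a * y.p + x.p * y.a + x.f * y.g)
    (x.a * y.q + x.q * y.a + x.g * y.e) (x.a * y.r + x.r * y.a + x.e * y.f)
    (x.a * y.s + x.s * y.a + x.e * y.p + x.p * y.e + x.f * y.q + x.q * y.f + x.g * y.r
      + x.r * y.g)⟩

instance : One B := ⟨mk 1 0 0 0 0 0 0 0⟩

section simps

variable (x y : B)

@[simp] theorem one_a : (1 : B).a = 1 := rfl
@[simp] theorem one_e : (1 : B).e = 0 := rfl
@[simp] theorem one_f : (1 : B).f = 0 := rfl
@[simp] theorem one_g : (1 : B).g = 0 := rfl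
@[simp] theorem one_p : (1 : B).p = 0 := rfl
@[simp] theorem one_q : (1 : B).q = 0 := rfl
@[simp] theorem one_r : (1 : B).r = 0 := rfl
@[simp] theorem one_s : (1 : B).s = 0 := rfl
@[simp] theorem mul_a : (x * y).a = x.a * y.a := rfl
@[simp] theorem mul_e : (x * y).e = x.a * y.e + x.e * y.a := rfl
@[simp] theorem mul_f : (x * y).f = x.a * y.f + x.f * y.a := rfl
@[simp] theorem mul_g : (x * y).g = x.a * y.g + x.g * y.a := rfl
@[simp] theorem mul_p : (x * y).p = x.a * y.p + x.p * y.a + x.f * y.g := rfl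
@[simp] theorem mul_q : (x * y).q = x.a * y.q + x.q * y.a + x.g * y.e := rfl
@[simp] theorem mul_r : (x * y).r = x.a * y.r + x.r * y.a + x.e * y.f := rfl
@[simp] theorem mul_s : (x * y).s =
    x.a * y.s + x.s * y.a + x.e * y.p + x.p * y.e + x.f * y.q + x.q * y.f + x.g * y.r
      + x.r * y.g := rfl

end simps

instance : Ring B :=
  { (inferInstance : AddCommGroup B), (inferInstance : Mul B), (inferInstance : One B) with
    left_distrib := fun x y z => by apply B.ext' <;> simp <;> ring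
    right_distrib := fun x y z => by apply B.ext' <;> simp <;> ring
    zero_mul := fun x => by apply B.ext' <;> simp
    mul_zero := fun x => by apply B.ext' <;> simp
    one_mul := fun x => by apply B.ext' <;> simp
    mul_one := fun x => by apply B.ext' <;> simp
    mul_assoc := fun x y z => by apply B.ext' <;> simp <;> ring }

/-- The ring `R` is centrally essential: for every nonzero `a` there are nonzero central `x, y` with
`a x = y`. -/
def IsCentrallyEssential (R : Type) [Ring R] : Prop :=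
  ∀ a : R, a ≠ 0 → ∃ x ∈ Subring.center R, ∃ y ∈ Subring.center R, x ≠ 0 ∧ y ≠ 0 ∧ a * x = y

/-- `I` is a right ideal. -/
def IsRightIdeal {R : Type} [Ring R] (I : AddSubgroup R) : Prop := ∀ x ∈ I, ∀ r : R, x * r ∈ I

/-- The right ideal `I` is essential. -/
def IsEssential {R : Type} [Ring R] (I : AddSubgroup R) : Prop :=
  ∀ J : AddSubgroup R, IsRightIdeal J → J ≠ ⊥ → I ⊓ J ≠ ⊥

/-- Elements without `e`-, `f`- and `g`-coordinates are central. -/
theorem mem_center (x : B) (he : x.e = 0) (hf : x.f = 0) (hg : x.g = 0) :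
    x ∈ Subring.center B := by
  rw [Subring.mem_center_iff]
  intro y
  apply B.ext' <;> simp [he, hf, hg] <;> ring

/-- Every nonzero element has a right multiple which is a nonzero integer multiple of `s`, unless
it is a combination of `p, q, r, s`; the factor is then one of the basis elements. -/
theorem exists_mul (x : B) (hx : x ≠ 0) :
    ∃ (y : B) (n : ℤ), n ≠ 0 ∧ x * y = mk 0 0 0 0 0 0 0 n := by
  by_cases h0 : x.a = 0
  · by_cases h1 : x.e = 0
    · by_cases h2 : x.f = 0
      · by_cases h3 : x.g = 0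
        · by_cases h4 : x.p = 0
          · by_cases h5 : x.q = 0
            · by_cases h6 : x.r = 0
              · refine ⟨1, x.s, fun h7 => hx (B.ext' h0 h1 h2 h3 h4 h5 h6 h7), ?_⟩
                rw [mul_one]
                apply B.ext' <;> simp [h0, h1, h2, h3, h4, h5, h6]
              · exact ⟨mk 0 0 0 1 0 0 0 0, x.r, h6, by
                  apply B.ext' <;> simp [h0, h1, h2, h3, h4, h5]⟩
            · exact ⟨mk 0 0 1 0 0 0 0 0, x.q, h5, by
                apply B.ext' <;> simp [h0, h1, h2, h3, h4]⟩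
          · exact ⟨mk 0 1 0 0 0 0 0 0, x.p, h4, by
              apply B.ext' <;> simp [h0, h1, h2, h3]⟩
        · exact ⟨mk 0 0 0 0 0 0 1 0, x.g, h3, by
            apply B.ext' <;> simp [h0]⟩
      · exact ⟨mk 0 0 0 0 0 1 0 0, x.f, h2, by
          apply B.ext' <;> simp [h0]⟩
    · exact ⟨mk 0 0 0 0 1 0 0 0, x.e, h1, by
        apply B.ext' <;> simp [h0]⟩
  · exact ⟨mk 0 0 0 0 0 0 0 1, x.a, h0, by apply B.ext' <;> simp⟩

theorem isCentrallyEssential : IsCentrallyEssential B := by
  intro x hx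
  by_cases h : x.a = 0 ∧ x.e = 0 ∧ x.f = 0 ∧ x.g = 0
  · obtain ⟨-, h1, h2, h3⟩ := h
    exact ⟨1, Subring.one_mem _, x, mem_center x h1 h2 h3,
      fun h => by simpa using congrArg B.a h, hx, mul_one x⟩
  · have key : ∃ (y : B) (n : ℤ), y.e = 0 ∧ y.f = 0 ∧ y.g = 0 ∧ n ≠ 0 ∧
        x * y = mk 0 0 0 0 0 0 0 n := by
      by_cases h0 : x.a = 0
      · by_cases h1 : x.e = 0
        · by_cases h2 : x.f = 0
          · by_cases h3 : x.g = 0
            · exact absurd ⟨h0, h1, h2, h3⟩ h
            · exact ⟨mk 0 0 0 0 0 0 1 0, x.g, rfl, rfl, rfl, h3, by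
                apply B.ext' <;> simp [h0]⟩
          · exact ⟨mk 0 0 0 0 0 1 0 0, x.f, rfl, rfl, rfl, h2, by
              apply B.ext' <;> simp [h0]⟩
        · exact ⟨mk 0 0 0 0 1 0 0 0, x.e, rfl, rfl, rfl, h1, by
            apply B.ext' <;> simp [h0]⟩
      · exact ⟨mk 0 0 0 0 0 0 0 1, x.a, rfl, rfl, rfl, h0, by apply B.ext' <;> simp⟩
    obtain ⟨y, n, h1, h2, h3, hn, hxy⟩ := key
    refine ⟨y, mem_center y h1 h2 h3, x * y, ?_, ?_, ?_, rfl⟩
    · rw [hxy]; exact mem_center _ rfl rfl rfl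
    · intro hy
      rw [hy, mul_zero] at hxy
      exact hn (congrArg B.s hxy).symm
    · intro hy
      rw [hxy] at hy
      exact hn (congrArg B.s hy)

/-- The right ideal spanned by `e, r, s`. -/
def I : AddSubgroup B where
  carrier := {x | x.a = 0 ∧ x.f = 0 ∧ x.g = 0 ∧ x.p = 0 ∧ x.q = 0}
  zero_mem' := ⟨rfl, rfl, rfl, rfl, rfl⟩
  add_mem' := by
    rintro x y ⟨h1, h2, h3, h4, h5⟩ ⟨k1, k2, k3, k4, k5⟩
    exact ⟨by simp [h1, k1], by simp [h2, k2], by simp [h3, k3], by simp [h4, k4],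
      by simp [h5, k5]⟩
  neg_mem' := by
    rintro x ⟨h1, h2, h3, h4, h5⟩
    exact ⟨by simp [h1], by simp [h2], by simp [h3], by simp [h4], by simp [h5]⟩

/-- There is a centrally essential ring `R` whose additive group is free abelian of rank `8`, and an
essential right ideal `I` of `R` that is not a left ideal of `R`. -/
theorem result : ∃ (R : Type) (_ : Ring R), Module.Free ℤ R ∧ Module.Finite ℤ R ∧
    Module.finrank ℤ R = 8 ∧ IsCentrallyEssential R ∧
    ∃ I : AddSubgroup R, IsRightIdeal I ∧ IsEssential I ∧ ∃ x ∈ I, ∃ r : R, r * x ∉ I := by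
  refine ⟨B, inferInstance, inferInstance, inferInstance, ?_, isCentrallyEssential, I, ?_, ?_, ?_⟩
  · have : Module.finrank ℤ (ℤ × ℤ × ℤ × ℤ × ℤ × ℤ × ℤ × ℤ) = 8 := by simp
    exact this
  · rintro x ⟨h1, h2, h3, h4, h5⟩ r
    exact ⟨by simp [h1], by simp [h1, h2], by simp [h1, h3], by simp [h1, h4, h2],
      by simp [h1, h5, h3]⟩
  · intro J hJ hJ0 h
    obtain ⟨⟨x, hx⟩, hx0'⟩ := AddSubgroup.ne_bot_iff_exists_ne_zero.1 hJ0
    have hx0 : x ≠ 0 := fun h => hx0' (Subtype.ext h)
    obtain ⟨y, n, hn, hxy⟩ := exists_mul x hx0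
    have h1 : x * y ∈ I ⊓ J := by
      refine ⟨?_, hJ x hx y⟩
      rw [hxy]
      exact ⟨rfl, rfl, rfl, rfl, rfl⟩
    rw [h, AddSubgroup.mem_bot, hxy] at h1
    exact hn (congrArg B.s h1)
  · refine ⟨mk 0 1 0 0 0 0 0 0, ⟨rfl, rfl, rfl, rfl, rfl⟩, mk 0 0 0 1 0 0 0 0, ?_⟩
    rintro ⟨-, -, -, -, h5⟩
    simp at h5

end Pool.Agent.Results.MP_4595ea_al.EssentialRightIdeal
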